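import Pool.Agent.W516.MTG.Stm

/-! Subtask MTD-CLA: positivity of the Clausen type values. -/

set_option autoImplicit false

namespace Pool.Agent.W883.MTG

open Real

theorem summ_b (n : ℕ) (hn : 2 ≤ n) (s : ℝ) (r : ℕ) :
    Summable (fun m : ℕ => s / ((r + 6 * m : ℕ) : ℝ) ^ n) := by
  have h1 : Summable (fun k : ℕ => s / (k : ℝ) ^ n) := by
    have h := (Real.summable_one_div_nat_pow.2 (show 1 < n by omega)).mul_left s
    refine h.congr fun k => ?_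
    rw [mul_one_div]
  have h2 : Function.Injective (fun m : ℕ => r + 6 * m) := by
    intro a b h
    simp only at h
    omega
  exact h1.comp_injective h2

theorem lt_b (n : ℕ) (hn : 2 ≤ n) (s : ℝ) (hs : 0 < s) (r t : ℕ) (hr : 0 < r) (hrt : r < t) :
    ∑' m : ℕ, s / ((t + 6 * m : ℕ) : ℝ) ^ n < ∑' m : ℕ, s / ((r + 6 * m : ℕ) : ℝ) ^ n := by
  have hlt : ∀ m : ℕ, s / ((t + 6 * m : ℕ) : ℝ) ^ n < s / ((r + 6 * m : ℕ) : ℝ) ^ n := by
    intro m
    have h1 : (0 : ℝ) < ((r + 6 * m : ℕ) : ℝ) := by exact_mod_cast (by omega : 0 < r + 6 * m)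
    have h2 : ((r + 6 * m : ℕ) : ℝ) < ((t + 6 * m : ℕ) : ℝ) := by
      exact_mod_cast (by omega : r + 6 * m < t + 6 * m)
    apply div_lt_div_of_pos_left hs (pow_pos h1 n)
    exact pow_lt_pow_left₀ h2 h1.le (by omega)
  exact Summable.tsum_lt_tsum (i := 0) (fun m => (hlt m).le) (hlt 0) (summ_b n hn s t)
    (summ_b n hn s r)

theorem sin_per (r m : ℕ) : Real.sin (((r + 6 * m : ℕ) : ℝ) * Real.pi / 3) =
    Real.sin ((r : ℝ) * Real.pi / 3) := by
  have h : ((r + 6 * m : ℕ) : ℝ) * Real.pi / 3 = (r : ℝ) * Real.pi / 3 + m * (2 * Real.pi) := by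
    push_cast; ring
  rw [h, Real.sin_add_nat_mul_two_pi]

theorem T_CLA : Pool.Agent.W516.MTG.StCla := by
  intro n hn
  set a : ℕ → ℝ := fun k => Real.sin (k * Real.pi / 3) / (k : ℝ) ^ n with ha
  have hsa : Summable a := by
    refine Summable.of_norm_bounded (g := fun k : ℕ => 1 / (k : ℝ) ^ n)
      (Real.summable_one_div_nat_pow.2 (by omega)) (fun k => ?_)
    rw [ha]
    simp only
    rw [norm_div, norm_pow, Real.norm_natCast, Real.norm_eq_abs]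
    exact div_le_div_of_nonneg_right (Real.abs_sin_le_one _) (by positivity)
  have hsum := Nat.sumByResidueClasses hsa 6
  set s : ℝ := Real.sqrt 3 / 2 with hs
  have hs0 : 0 < s := by rw [hs]; positivity
  have hterm : ∀ r : ℕ, ∑' m : ℕ, a (r + 6 * m) =
      ∑' m : ℕ, Real.sin ((r : ℝ) * Real.pi / 3) / ((r + 6 * m : ℕ) : ℝ) ^ n := by
    intro r
    refine tsum_congr fun m => ?_
    simp only [ha]
    rw [sin_per]
  have v0 : Real.sin (((0 : ℕ) : ℝ) * Real.pi / 3) = 0 := by simp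
  have v1 : Real.sin (((1 : ℕ) : ℝ) * Real.pi / 3) = s := by
    rw [Nat.cast_one, one_mul, Real.sin_pi_div_three]
  have v2 : Real.sin (((2 : ℕ) : ℝ) * Real.pi / 3) = s := by
    have h : ((2 : ℕ) : ℝ) * Real.pi / 3 = Real.pi - Real.pi / 3 := by push_cast; ring
    rw [h, Real.sin_pi_sub, Real.sin_pi_div_three]
  have v3 : Real.sin (((3 : ℕ) : ℝ) * Real.pi / 3) = 0 := by
    have h : ((3 : ℕ) : ℝ) * Real.pi / 3 = Real.pi := by push_cast; ring
    rw [h, Real.sin_pi]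
  have v4 : Real.sin (((4 : ℕ) : ℝ) * Real.pi / 3) = -s := by
    have h : ((4 : ℕ) : ℝ) * Real.pi / 3 = Real.pi / 3 + Real.pi := by push_cast; ring
    rw [h, Real.sin_add_pi, Real.sin_pi_div_three]
  have v5 : Real.sin (((5 : ℕ) : ℝ) * Real.pi / 3) = -s := by
    have h : ((5 : ℕ) : ℝ) * Real.pi / 3 = (Real.pi - Real.pi / 3) + Real.pi := by push_cast; ring
    rw [h, Real.sin_add_pi, Real.sin_pi_sub, Real.sin_pi_div_three]
  have hz : ∑ j : ZMod 6, ∑' m : ℕ, a (j.val + 6 * m) =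
      ∑' m : ℕ, a (0 + 6 * m) + ∑' m : ℕ, a (1 + 6 * m) + ∑' m : ℕ, a (2 + 6 * m) +
      ∑' m : ℕ, a (3 + 6 * m) + ∑' m : ℕ, a (4 + 6 * m) + ∑' m : ℕ, a (5 + 6 * m) :=
    Fin.sum_univ_six _
  rw [hsum, hz, hterm 0, hterm 1, hterm 2, hterm 3, hterm 4, hterm 5, v0, v1, v2, v3, v4, v5]
  have n4 : ∑' m : ℕ, -s / ((4 + 6 * m : ℕ) : ℝ) ^ n =
      - ∑' m : ℕ, s / ((4 + 6 * m : ℕ) : ℝ) ^ n := by
    rw [← tsum_neg]
    exact tsum_congr fun m => neg_div _ _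
  have n5 : ∑' m : ℕ, -s / ((5 + 6 * m : ℕ) : ℝ) ^ n =
      - ∑' m : ℕ, s / ((5 + 6 * m : ℕ) : ℝ) ^ n := by
    rw [← tsum_neg]
    exact tsum_congr fun m => neg_div _ _
  have z0 : ∀ r : ℕ, ∑' m : ℕ, (0 : ℝ) / ((r + 6 * m : ℕ) : ℝ) ^ n = 0 := by
    intro r
    simp
  rw [n4, n5, z0 0, z0 3]
  have h1 := lt_b n hn s hs0 1 4 (by norm_num) (by norm_num)
  have h2 := lt_b n hn s hs0 2 5 (by norm_num) (by norm_num)
  linarith

end Pool.Agent.W883.MTG
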